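import Pool.Agent.H51.EI.TargetsC

/-!
# MP_58ae59_nt: HAR, Hermite's numbers, arithmetic part
-/

set_option autoImplicit false

open Polynomial Finset

namespace Pool.Agent.H96.EI.HAR

open Pool.Agent.H51.EI

variable {O : Subring ℂ}

private theorem eval_toC (P : (↥O)[X]) (r : ℂ) : (toC P).sumIDeriv.eval r =
    aeval r (sumIDeriv P) := by
  unfold toC
  rw [sumIDeriv_map, aeval_def, eval_map]
  rfl

private theorem degree_hf (a b : O) (D p : ℕ) :
    (hf a b D p).natDegree ≤ (D + 1) * p := by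
  unfold hf
  refine natDegree_mul_le.trans ?_
  have h1 : (X ^ (p - 1) : (↥O)[X]).natDegree ≤ p := (natDegree_X_pow_le _).trans (Nat.sub_le _ _)
  have h2 : (∏ l ∈ Finset.Icc 1 D, (C b * X - C ((l : O) * a)) ^ p : (↥O)[X]).natDegree ≤
      D * p := by
    refine (natDegree_prod_le _ _).trans ?_
    have h3 : ∀ l ∈ Finset.Icc 1 D, ((C b * X - C ((l : O) * a)) ^ p : (↥O)[X]).natDegree ≤ p := by
      intro l _
      refine natDegree_pow_le.trans ?_
      have h4 : (C b * X - C ((l : O) * a) : (↥O)[X]).natDegree ≤ 1 := by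
        refine (natDegree_sub_le _ _).trans (max_le ?_ ?_)
        · exact (natDegree_C_mul_le _ _).trans natDegree_X_le
        · rw [natDegree_C]
          exact Nat.zero_le _
      calc p * _ ≤ p * 1 := Nat.mul_le_mul_left _ h4
        _ = p := mul_one p
    refine (Finset.sum_le_sum h3).trans ?_
    rw [Finset.sum_const, Nat.card_Icc, smul_eq_mul, Nat.add_sub_cancel]
  calc _ ≤ p + D * p := Nat.add_le_add h1 h2
    _ = (D + 1) * p := by ring

/-- clearing of the denominators -/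
private theorem clear (g : (↥O)[X]) (N : ℕ) (hN : g.natDegree ≤ N) (b c : O) (hb : b ≠ 0) :
    (b : ℂ) ^ N * aeval ((c : ℂ) / (b : ℂ)) g =
      ((∑ i ∈ Finset.range (N + 1), g.coeff i * c ^ i * b ^ (N - i) : O) : ℂ) := by
  have hb' : (b : ℂ) ≠ 0 := by
    intro h
    exact hb (Subtype.ext h)
  rw [aeval_eq_sum_range' (Nat.lt_succ_of_le hN), Finset.mul_sum]
  push_cast
  refine Finset.sum_congr rfl fun i hi => ?_
  have hi' : i ≤ N := Nat.lt_succ_iff.1 (Finset.mem_range.1 hi)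
  have h1 : (b : ℂ) ^ N = (b : ℂ) ^ (N - i) * (b : ℂ) ^ i := by
    rw [← pow_add, Nat.sub_add_cancel hi']
  have h2 : g.coeff i • ((c : ℂ) / (b : ℂ)) ^ i = (g.coeff i : ℂ) * ((c : ℂ) / (b : ℂ)) ^ i := rfl
  rw [h2, h1, div_pow]
  field_simp

theorem pf_HAR : T_HAR := by
  classical
  intro O a b D p ha hb hp
  have hp1 : 1 ≤ p := hp.one_lt.le
  have hb' : (b : ℂ) ≠ 0 := by
    intro h
    exact hb (Subtype.ext h)
  set P := hf a b D p with hP
  obtain ⟨gp, hgp1, hgp2⟩ := aeval_sumIDeriv ℂ P p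
  obtain ⟨g0, -, hg0⟩ := eval_sumIDeriv_of_pos P hp1
  have hfac : ((p).factorial : ℂ) / ((p - 1).factorial : ℂ) = p := by
    have h1 : p.factorial = p * (p - 1).factorial := (Nat.mul_factorial_pred (by omega)).symm
    have h2 : ((p - 1).factorial : ℂ) ≠ 0 := by exact_mod_cast (Nat.factorial_ne_zero _)
    rw [h1]
    push_cast
    field_simp
  have hdeg : gp.natDegree ≤ (D + 1) * p :=
    (hgp1.trans (Nat.sub_le _ _)).trans (degree_hf a b D p)
  refine ⟨fun l => if l = 0 then b ^ ((D + 1) * p) * g0.eval 0 else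
    ∑ i ∈ Finset.range ((D + 1) * p + 1), gp.coeff i * ((l : O) * a) ^ i *
      b ^ ((D + 1) * p - i), ?_, ?_⟩
  · intro l hl1 hl2
    have hl0 : l ≠ 0 := by omega
    have hdvd : (X - C ((l : ℂ) * ((a : ℂ) / (b : ℂ)))) ^ p ∣ P.map (algebraMap O ℂ) := by
      rw [hP]
      unfold hf
      rw [Polynomial.map_mul, Polynomial.map_prod]
      refine Dvd.dvd.mul_left ?_ _
      refine Dvd.dvd.trans ?_ (Finset.dvd_prod_of_mem _ (Finset.mem_Icc.2 ⟨hl1, hl2⟩))
      rw [Polynomial.map_pow]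
      refine pow_dvd_pow_of_dvd ?_ p
      rw [Polynomial.map_sub, Polynomial.map_mul, map_C, map_X, map_C]
      refine ⟨C (b : ℂ), ?_⟩
      have h1 : (algebraMap O ℂ) ((l : O) * a) = ((l : ℂ) * ((a : ℂ) / (b : ℂ))) * (b : ℂ) := by
        rw [map_mul, map_natCast, mul_assoc, div_mul_cancel₀ _ hb']
        rfl
      rw [h1, C_mul (a := (l : ℂ) * ((a : ℂ) / (b : ℂ)))]
      have h2 : (algebraMap O ℂ) b = (b : ℂ) := rfl
      rw [h2]
      ring
    have h1 := hgp2 _ hdvd
    have h2 := clear gp _ hdeg b ((l : O) * a) hb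
    have h3 : (((l : O) * a : O) : ℂ) / (b : ℂ) = (l : ℂ) * ((a : ℂ) / (b : ℂ)) := by
      push_cast
      ring
    rw [h3] at h2
    show _ = (p : ℂ) * ((if l = 0 then _ else _ : O) : ℂ)
    rw [if_neg hl0, ← h2]
    unfold hF
    rw [← hP, eval_toC, h1, nsmul_eq_mul]
    calc (b : ℂ) ^ ((D + 1) * p) * ((p.factorial : ℂ) * aeval ((l : ℂ) * ((a : ℂ) / (b : ℂ))) gp /
        ((p - 1).factorial : ℂ)) = ((p.factorial : ℂ) / ((p - 1).factorial : ℂ)) *
          ((b : ℂ) ^ ((D + 1) * p) * aeval ((l : ℂ) * ((a : ℂ) / (b : ℂ))) gp) := by ring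
      _ = _ := by rw [hfac]
  · show _ = _ + (p : ℂ) * ((if 0 = 0 then _ else _ : O) : ℂ)
    rw [if_pos rfl]
    have h1 : P = (X - C (0 : O)) ^ (p - 1) *
        (∏ l ∈ Finset.Icc 1 D, (C b * X - C ((l : O) * a)) ^ p) := by
      rw [map_zero, sub_zero]
      rfl
    have h2 := hg0 0 h1
    have h3 : (toC P).sumIDeriv.eval (((0 : ℕ) : ℂ) * ((a : ℂ) / (b : ℂ))) =
        ((eval 0 (sumIDeriv P) : O) : ℂ) := by
      rw [Nat.cast_zero, zero_mul]
      unfold toC
      rw [sumIDeriv_map]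
      have h4 := Polynomial.eval_map_apply (f := O.subtype) (p := sumIDeriv P) (x := (0 : O))
      rw [map_zero] at h4
      exact h4
    unfold hF
    rw [← hP, h3, h2]
    have h5 : ((p - 1).factorial : ℂ) ≠ 0 := by exact_mod_cast (Nat.factorial_ne_zero _)
    have h6 : (p.factorial : ℂ) = (p : ℂ) * ((p - 1).factorial : ℂ) := by
      exact_mod_cast (Nat.mul_factorial_pred (by omega)).symm
    have h7 : (((p - 1).factorial • eval 0 (∏ l ∈ Finset.Icc 1 D, (C b * X - C ((l : O) * a)) ^ p) +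
        p.factorial • eval 0 g0 : O) : ℂ) = ((p - 1).factorial : ℂ) *
          (∏ l ∈ Finset.Icc 1 D, (-((l : ℂ) * a)) ^ p) + (p : ℂ) * ((p - 1).factorial : ℂ) *
            ((eval 0 g0 : O) : ℂ) := by
      rw [← h6]
      simp only [nsmul_eq_mul, eval_prod, eval_pow, eval_sub, eval_mul, eval_C, eval_X, mul_zero,
        zero_sub]
      push_cast
      rfl
    rw [h7]
    push_cast
    generalize (∏ l ∈ Finset.Icc 1 D, (-((l : ℂ) * (a : ℂ))) ^ p) = Q
    field_simp

end Pool.Agent.H96.EI.HAR
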